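import Pool.Agent.Y110.FJ.Stm

/-!
# The extension criterion with infinite cyclic subgroups
-/

set_option autoImplicit false

namespace Pool.Agent.Y529.FJ

open Pool.Agent.Y110.FJ
open Pool.Agent.Y462.SS (Closed)

/-- finite index overgroups inside an ambient group -/
theorem up {C : ∀ (G : Type) [Group G], Prop} (hC : Closed C) {G : Type} [Group G]
    {H K : Subgroup G} (hle : H ≤ K) (hi : H.relIndex K ≠ 0) (hH : C ↥H) : C ↥K := by
  refine hC.finiteIndex ↥K (H.subgroupOf K) ⟨hi⟩ ?_
  exact hC.of_injective _ _ (Subgroup.subgroupOfEquivOfLe hle).toMonoidHom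
    (Subgroup.subgroupOfEquivOfLe hle).injective hH

theorem t_ext : S_EXT := by
  intro C hC G _ N _ hN hQ h
  refine hC.ext G (G ⧸ N) (QuotientGroup.mk' N) (QuotientGroup.mk'_surjective N) hQ ?_
  rintro V ⟨c, hcV, hrel⟩
  obtain ⟨g, rfl⟩ := QuotientGroup.mk'_surjective N c
  have hker : (QuotientGroup.mk' N).ker = N := QuotientGroup.ker_mk' N
  have hsur := QuotientGroup.mk'_surjective N
  have hcomap : (Subgroup.zpowers (QuotientGroup.mk' N g)).comap (QuotientGroup.mk' N) =
      N ⊔ Subgroup.zpowers g := by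
    rw [← MonoidHom.map_zpowers, Subgroup.comap_map_eq, hker, sup_comm]
  have key : C ↥(N ⊔ Subgroup.zpowers g) := by
    by_cases hg : ∀ n : ℕ, 0 < n → g ^ n ∉ N
    · exact h g hg
    · push Not at hg
      obtain ⟨n, hn, hgn⟩ := hg
      have hfin : IsOfFinOrder (QuotientGroup.mk' N g) := by
        rw [isOfFinOrder_iff_pow_eq_one]
        refine ⟨n, hn, ?_⟩
        rw [← map_pow]
        exact (QuotientGroup.eq_one_iff _).2 hgn
      refine up hC.base le_sup_left ?_ hN
      rw [← hcomap]
      have e1 : N = (⊥ : Subgroup (G ⧸ N)).comap (QuotientGroup.mk' N) := by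
        rw [MonoidHom.comap_bot, hker]
      have e2 : N.relIndex ((Subgroup.zpowers (QuotientGroup.mk' N g)).comap
          (QuotientGroup.mk' N)) = Nat.card ↥(Subgroup.zpowers (QuotientGroup.mk' N g)) := by
        refine (congrArg (fun H => Subgroup.relIndex H ((Subgroup.zpowers
          (QuotientGroup.mk' N g)).comap (QuotientGroup.mk' N))) e1).trans ?_
        change ((⊥ : Subgroup (G ⧸ N)).comap (QuotientGroup.mk' N)).relIndex _ = _
        rw [Subgroup.relIndex_comap, Subgroup.map_comap_eq_self_of_surjective hsur,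
          Subgroup.relIndex_bot_left]
      rw [e2, Nat.card_zpowers]
      exact hfin.orderOf_pos.ne'
  refine up hC.base (H := N ⊔ Subgroup.zpowers g) ?_ ?_ key
  · rw [← hcomap]
    exact Subgroup.comap_mono (by rwa [Subgroup.zpowers_le])
  · rw [← hcomap, Subgroup.relIndex_comap, Subgroup.map_comap_eq_self_of_surjective hsur]
    exact hrel

end Pool.Agent.Y529.FJ
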