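import Pool.Agent.Y110.FJ.Stm

/-!
# Extension property for one partial automorphism of a finite graph
-/

set_option autoImplicit false

namespace Pool.Agent.Y529.FJ

open Pool.Agent.Y110.FJ

theorem t_eppa : S_EPPA := by
  classical
  intro S hS Λ D f hf hadj
  have := Fintype.ofFinite S
  obtain ⟨n, ⟨e⟩⟩ := Finite.exists_equiv_fin S
  obtain ⟨c, hcdef⟩ : ∃ c : S → S → ZMod 2, c = fun x y => if Λ.Adj x y ∧ e y < e x then 1 else 0 :=
    ⟨_, rfl⟩
  have hc : ∀ x y, c x y + c y x = if Λ.Adj x y then 1 else 0 := by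
    intro x y
    by_cases h : Λ.Adj x y
    · have hne : e x ≠ e y := fun h' => h.ne (e.injective h')
      rcases lt_or_gt_of_ne hne with h1 | h1
      · simp [hcdef, h, h.symm, h1, h1.not_gt]
      · simp [hcdef, h, h.symm, h1, h1.not_gt]
    · have h' : ¬ Λ.Adj y x := fun h' => h h'.symm
      simp [hcdef, h, h']
  have h2 : ∀ a : ZMod 2, a + a = 0 := by decide
  have h3 : ∀ a b : ZMod 2, a + b + b = a := by decide
  have h4 : ∀ a b : ZMod 2, a + b = 0 → a = b := by decide
  obtain ⟨s, hsdef⟩ : ∃ s : Equiv.Perm S, s = (Equiv.ofInjective f hf).extendSubtype := ⟨_, rfl⟩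
  have hs : ∀ x : D, s x = f x := by
    intro x
    rw [hsdef]
    exact Equiv.extendSubtype_apply_of_mem (Equiv.ofInjective f hf) x.1 x.2
  have hadj' : ∀ x ∈ D, ∀ y ∈ D, (Λ.Adj (s x) (s y) ↔ Λ.Adj x y) := by
    intro x hx y hy
    rw [hs ⟨x, hx⟩, hs ⟨y, hy⟩]
    exact hadj ⟨x, hx⟩ ⟨y, hy⟩
  obtain ⟨G, hG⟩ : ∃ G : S → S → ZMod 2, G = fun x y => c x y + c (s x) (s y) := ⟨_, rfl⟩
  obtain ⟨F, hF⟩ : ∃ F : S → S → ZMod 2,
    F = fun x y => if x ∈ D then G x y else if y ∈ D then G y x else 0 := ⟨_, rfl⟩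
  have hGs : ∀ x ∈ D, ∀ y ∈ D, G x y = G y x := by
    intro x hx y hy
    apply h4
    have e1 : G x y + G y x = (c x y + c y x) + (c (s x) (s y) + c (s y) (s x)) := by
      rw [hG]; ring
    rw [e1, hc, hc]
    by_cases h : Λ.Adj x y
    · rw [if_pos h, if_pos ((hadj' x hx y hy).2 h)]; exact h2 1
    · rw [if_neg h, if_neg (fun h' => h ((hadj' x hx y hy).1 h'))]; exact h2 0
  have hFs : ∀ x y, F x y = F y x := by
    intro x y
    rw [hF]
    by_cases hx : x ∈ D
    · by_cases hy : y ∈ D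
      · simp [hx, hy, hGs x hx y hy]
      · simp [hx, hy]
    · by_cases hy : y ∈ D
      · simp [hx, hy]
      · simp [hx, hy]
  have hFD : ∀ x ∈ D, ∀ y, c x y + F x y = c (s x) (s y) := by
    intro x hx y
    have e1 : F x y = c x y + c (s x) (s y) := by rw [hF, hG]; simp [hx]
    rw [e1, ← add_assoc, h2, zero_add]
  let Λ' : SimpleGraph (S × (S → ZMod 2)) :=
    { Adj := fun p q => p.1 ≠ q.1 ∧ p.2 q.1 + q.2 p.1 = 1
      symm := ⟨fun p q h => ⟨h.1.symm, by rw [add_comm]; exact h.2⟩⟩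
      loopless := ⟨fun p h => h.1 rfl⟩ }
  let τ : Equiv.Perm (S × (S → ZMod 2)) :=
    { toFun := fun p => (s p.1, fun w => p.2 (s.symm w) + F p.1 (s.symm w))
      invFun := fun p => (s.symm p.1, fun z => p.2 (s z) + F (s.symm p.1) z)
      left_inv := by
        rintro ⟨x, χ⟩
        refine Prod.ext (s.symm_apply_apply x) ?_
        funext z
        change χ (s.symm (s z)) + F x (s.symm (s z)) + F (s.symm (s x)) z = χ z
        rw [s.symm_apply_apply, s.symm_apply_apply, h3]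
      right_inv := by
        rintro ⟨x, χ⟩
        refine Prod.ext (s.apply_symm_apply x) ?_
        funext w
        change χ (s (s.symm w)) + F (s.symm x) (s.symm w) + F (s.symm x) (s.symm w) = χ w
        rw [s.apply_symm_apply, h3] }
  refine ⟨S × (S → ZMod 2), inferInstance, Λ', fun x => (x, c x), τ, ?_, ?_, ?_, ?_⟩
  · intro x y h
    exact (Prod.ext_iff.1 h).1
  · intro x y
    change (x ≠ y ∧ c x y + c y x = 1) ↔ _
    rw [hc]
    constructor
    · rintro ⟨-, h⟩
      by_contra hn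
      rw [if_neg hn] at h
      exact absurd h (by decide)
    · intro h
      exact ⟨h.ne, by rw [if_pos h]⟩
  · rintro ⟨x, χ⟩ ⟨y, ψ⟩
    change (s x ≠ s y ∧ (χ (s.symm (s y)) + F x (s.symm (s y))) +
      (ψ (s.symm (s x)) + F y (s.symm (s x))) = 1) ↔ (x ≠ y ∧ χ y + ψ x = 1)
    rw [s.symm_apply_apply, s.symm_apply_apply, hFs y x,
      show χ y + F x y + (ψ x + F x y) = χ y + ψ x + (F x y + F x y) by ring, h2, add_zero]
    exact and_congr (s.injective.ne_iff) Iff.rfl
  · intro x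
    refine Prod.ext (hs x) ?_
    funext w
    change c x (s.symm w) + F x (s.symm w) = c (f x) w
    rw [hFD x.1 x.2, s.apply_symm_apply, hs x]

end Pool.Agent.Y529.FJ
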